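import Pool.Agent.X170.PC.Stm

/-! Words give permutations. -/

set_option autoImplicit false

namespace Pool.Agent.X133.PC

open Pool.Agent.X170.PC

theorem g_lt {n : ℕ} {w : List ℕ} (hl : w.length = n) (hw : Good w) (i : ℕ) (hi : i < n) :
    g w i < n := by
  have h1 : i < w.length := by omega
  have h2 : g w i = w[i] := by
    unfold g
    rw [List.getD_eq_getElem?_getD, List.getElem?_eq_getElem h1]
    rfl
  rw [h2, ← hl]
  exact hw.2.1 _ (List.getElem_mem h1)

/-- the map of a word -/
def mp {n : ℕ} (w : List ℕ) (hl : w.length = n) (hw : Good w) (i : Fin n) : Fin n :=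
  ⟨g w i, g_lt hl hw i i.2⟩

theorem mp_inj {n : ℕ} (w : List ℕ) (hl : w.length = n) (hw : Good w) :
    Function.Injective (mp w hl hw) := by
  intro i j hij
  have h0 : g w i = g w j := congrArg Fin.val hij
  have hi : (i : ℕ) < w.length := by rw [hl]; exact i.2
  have hj : (j : ℕ) < w.length := by rw [hl]; exact j.2
  unfold g at h0
  rw [List.getD_eq_getElem?_getD, List.getD_eq_getElem?_getD, List.getElem?_eq_getElem hi,
    List.getElem?_eq_getElem hj] at h0
  have h1 : w[(i : ℕ)] = w[(j : ℕ)] := h0
  exact Fin.ext ((hw.1.getElem_inj_iff).1 h1)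

/-- the permutation of a word -/
noncomputable def pm {n : ℕ} (w : List ℕ) (hl : w.length = n) (hw : Good w) :
    Equiv.Perm (Fin n) :=
  Equiv.ofBijective (mp w hl hw) ⟨mp_inj w hl hw, Finite.surjective_of_injective (mp_inj w hl hw)⟩

theorem pm_val {n : ℕ} (w : List ℕ) (hl : w.length = n) (hw : Good w) (i : Fin n) :
    ((pm w hl hw i : Fin n) : ℕ) = g w i := rfl

theorem t_BR1 : S_BR1 := by
  intro n
  rw [← Nat.card_coe_set_eq]
  have hprop : ∀ w : A n, P321 (pm w.1 w.2.1 w.2.2.1) ∧ Cyc (pm w.1 w.2.1 w.2.2.1) := by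
    rintro ⟨w, hl, hw, hav⟩
    refine ⟨?_, ?_⟩
    · intro i j k hij hjk h
      have h1 : g w k < g w j ∧ g w j < g w i := by
        obtain ⟨a, b⟩ := h
        exact ⟨by rw [← pm_val w hl hw k, ← pm_val w hl hw j]; exact a,
          by rw [← pm_val w hl hw j, ← pm_val w hl hw i]; exact b⟩
      exact hav i j k hij hjk (by rw [hl]; exact k.2) h1
    · intro i
      have h1 := hw.2.2 i (by rw [hl]; exact i.2)
      rcases h1 with h1 | h1
      · have h2 : Function.IsPeriodicPt (pm w hl hw) 2 i := by
          change pm w hl hw (pm w hl hw i) = i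
          apply Fin.ext
          rw [pm_val, pm_val]
          exact h1
        have h3 := h2.minimalPeriod_dvd
        have h4 := Nat.le_of_dvd (by norm_num) h3
        have h5 := Nat.pos_of_dvd_of_pos h3 (by norm_num)
        simp only [Set.mem_insert_iff, Set.mem_singleton_iff]
        omega
      · have h2 : Function.IsPeriodicPt (pm w hl hw) 3 i := by
          change pm w hl hw (pm w hl hw (pm w hl hw i)) = i
          apply Fin.ext
          rw [pm_val, pm_val, pm_val]
          exact h1
        have h3 := h2.minimalPeriod_dvd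
        have h4 := Nat.le_of_dvd (by norm_num) h3
        have h5 := Nat.pos_of_dvd_of_pos h3 (by norm_num)
        simp only [Set.mem_insert_iff, Set.mem_singleton_iff]
        omega
  refine Nat.card_le_card_of_injective
    (fun w : A n => (⟨pm w.1 w.2.1 w.2.2.1, hprop w⟩ :
      {π : Equiv.Perm (Fin n) // P321 π ∧ Cyc π})) ?_
  rintro ⟨w, hl, hw, hav⟩ ⟨w', hl', hw', hav'⟩ h
  have h1 : pm w hl hw = pm w' hl' hw' := congrArg Subtype.val h
  apply Subtype.ext
  change w = w'
  apply List.ext_getElem (by rw [hl, hl'])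
  intro i hi hi'
  have h2 := congrArg (fun π : Equiv.Perm (Fin n) => ((π ⟨i, by omega⟩ : Fin n) : ℕ)) h1
  simp only [pm_val] at h2
  unfold g at h2
  rw [List.getD_eq_getElem?_getD, List.getD_eq_getElem?_getD, List.getElem?_eq_getElem hi,
    List.getElem?_eq_getElem hi'] at h2
  exact h2

end Pool.Agent.X133.PC
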